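import Pool.Agent.Y171.CG.NumU
import Pool.Agent.Y171.CG.Uni
import Pool.Agent.Y297.CG.Lc

/-!
# Cryptogenography: the limit of `s_k`

For a sequence `g` of positive numbers and `u ∈ [0,1]^k` let `K g u` be the maximum over
`2 ≤ r ≤ k` of `g r / u_(r)`, where `u_(r)` is the `r`-th smallest coordinate of `u`.  There is
exactly one nondecreasing sequence `g_2, g_3, …` with `E (K g u) = n - 1` for all `n ≥ 2` (`u`
uniform in `[0,1]^n`).  For this sequence and all `k ≥ 2`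

`E max (K g u, K g v) / (2 k) ≤ s_k ≤ E max (K g u, K g (1 - u)) / (2 k)`

(`u`, `v` independent and uniform in `[0,1]^k`), and the three expressions have the same limit `L`
as `k → ∞`, with `0.6215 ≤ L ≤ 0.6225`.
-/

open MeasureTheory Filter Topology
open Pool.Agent.Y171.CG

namespace Pool.Agent.Results.MP_5b9e43_lc.ManyPlayersLimit

theorem extremal_iff {g : ℕ → ℝ} : Extremal g ↔ GoodSeq g := by
  constructor
  · intro h
    exact ⟨h.1, h.2.1, fun n hn => by
      rw [← (Pool.Agent.Y297.CG.lcj g n h.1).2]; exact h.2.2 n hn⟩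
  · intro h
    exact ⟨h.1, h.2.1, fun n hn => by
      rw [(Pool.Agent.Y297.CG.lcj g n h.1).2]; exact h.2.2 n hn⟩

/-- **The asymptotic behaviour of the optimal winning probability in cryptogenography.** -/
theorem result :
    ∃ L : ℝ, Tendsto s atTop (𝓝 L) ∧ 0.6215 ≤ L ∧ L ≤ 0.6225 ∧
      (∃ g : ℕ → ℝ, Extremal g) ∧
      ∀ g : ℕ → ℝ, Extremal g →
        (∀ g' : ℕ → ℝ, Extremal g' → ∀ r, 2 ≤ r → g' r = g r) ∧
        (∀ k : ℕ, 2 ≤ k → lowB g k ≤ s k ∧ s k ≤ uppB g k) ∧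
        Tendsto (lowB g) atTop (𝓝 L) ∧ Tendsto (uppB g) atTop (𝓝 L) := by
  obtain ⟨g₀, hg₀⟩ := f_EXI
  obtain ⟨L, -, -, hs⟩ := limit hg₀
  have hb := limit_bounds hs
  refine ⟨L, hs, hb.1, hb.2, ⟨g₀, extremal_iff.2 hg₀⟩, ?_⟩
  intro g hg
  have hg' := extremal_iff.1 hg
  obtain ⟨L', h1, h2, h3⟩ := limit hg'
  have hLL : L' = L := tendsto_nhds_unique h3 hs
  subst hLL
  have hW := fun (k : ℕ) (hk : 0 < k) => Pool.Agent.Y297.CG.lcw g k hg.1 hk
  have hlow : ∀ᶠ k : ℕ in atTop, W g k = lowB g k := by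
    filter_upwards [eventually_gt_atTop 0] with k hk
    exact (hW k hk).1.symm
  have hupp : ∀ᶠ k : ℕ in atTop, Wa g k = uppB g k := by
    filter_upwards [eventually_gt_atTop 0] with k hk
    exact (hW k hk).2.symm
  refine ⟨fun g' hg'' r hr => f_UNI g' g (extremal_iff.1 hg'') hg' r hr, fun k hk => ?_,
    h1.congr' hlow, h2.congr' hupp⟩
  have hk0 : 0 < k := by omega
  rw [(hW k hk0).1, (hW k hk0).2]
  exact sandwich hg' hk0

end Pool.Agent.Results.MP_5b9e43_lc.ManyPlayersLimit
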