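import Pool.Agent.Y171.CG.Main
import Pool.Agent.Y366.CG.Two

/-!
# Cryptogenography with two players: `s_2 ≤ (ln 2) / 2 = 0.34657…`
-/

open Pool.Agent.Y171.CG

namespace Pool.Agent.Results.MP_5b9e43_lc.TwoPlayersUpperBound

/-- The optimal winning probability of two players in the cryptogenography game is at most
`(ln 2) / 2 < 0.34658`. -/
theorem result : s 2 ≤ Real.log 2 / 2 := by
  have hJ := Pool.Agent.Y366.CG.t (fun _ => 1 / 2) rfl
  rw [← hJ.2]
  apply s_le_Wa (by norm_num)
  · intro r _
    norm_num
  · intro n h2 hn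
    have : n = 2 := by omega
    subst this
    rw [hJ.1]
    norm_num

end Pool.Agent.Results.MP_5b9e43_lc.TwoPlayersUpperBound
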